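import Pool.Agent.Q70.LA.Defs
import Pool.Agent.W534.Hyp3
import Pool.Agent.W534.Uni
import Pool.Agent.H447R3.AoC
import Pool.Agent.Y103.HRWeil

/-!
# The conjecture A in one codimension
-/

set_option autoImplicit false

open CategoryTheory AlgebraicGeometry Submodule

universe u v

namespace Pool.Agent.Q70.LA

open Pool.Agent.H914 Pool.Agent.H447 Pool.Agent.W534 VarClass Obj WeilCohomology
  Pool.Agent.H281R3.HT

variable {k : Type u} [Field k] {𝒱 : VarClass k} {ops : CycleOps 𝒱}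
  {W : WeilCohomology.{u, v} ops} {X : 𝒱.Obj} {D : X.Cycles}

/-- `D ^ j · z` has codimension `j` more. -/
lemma pow_cyc (hD : X.IsCyc 1 D) (j : ℕ) : W.cl X (divPow ops D j X.V.fundCycle) = W.cl X D ^ j := by
  rw [cl_divPow, LinearMap.pow_mulLeft, LinearMap.mulLeft_apply, W.cl_fund, mul_one]

/-- The conjecture A in codimension zero. -/
theorem aIn_zero (hD : X.IsCyc 1 D) (hHL : HardLefschetz W X D) : LefschetzAIn W X D 0 := by
  intro z hz
  rw [Nat.sub_zero] at hz
  have h5 : X.IsCyc X.dim (divPow ops D X.dim X.V.fundCycle) := by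
    have := divPow_mem (ops := ops) hD X.dim X.V.fundCycle_mem
    rwa [zero_add] at this
  obtain ⟨a, ha, haz⟩ := (hHL 0 (Nat.zero_le _)).2 (W.cl X z) (by
    rw [Nat.sub_zero]
    exact W.cl_mem hz)
  rw [W.gr_zero, mem_span_singleton] at ha
  obtain ⟨s, rfl⟩ := ha
  rw [Nat.sub_zero, LinearMap.pow_mulLeft, LinearMap.mulLeft_apply, mul_smul_comm, mul_one] at haz
  have h6 := W.tr_cl h5
  rw [pow_cyc hD] at h6
  have h7 := W.tr_cl hz
  rw [← haz, map_smul, h6, smul_eq_mul] at h7
  set t := X.V.degCycle (divPow ops D X.dim X.V.fundCycle) with ht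
  by_cases ht0 : t = 0
  · -- the class of a point vanishes
    refine ⟨0, SmVar.IsCyc.zero _ _, ?_⟩
    rw [← haz]
    have h8 : W.cl X D ^ X.dim = 0 := by
      apply Pool.Agent.Y103.top_eq_zero
      · have := W.cl_mem h5
        rwa [pow_cyc hD] at this
      · rw [h6, ht0, Rat.cast_zero]
    rw [h8, smul_zero, Nat.mul_zero, Nat.sub_zero, cl_divPow, map_zero, map_zero]
  · have ht1 : (t : W.K) ≠ 0 := by exact_mod_cast ht0
    have h8 : s = ((X.V.degCycle z / t : ℚ) : W.K) := by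
      rw [Rat.cast_div, ← h7, mul_div_assoc, div_self ht1, mul_one]
    refine ⟨(X.V.degCycle z / t) • X.V.fundCycle, SmVar.IsCyc.smul _ X.V.fundCycle_mem, ?_⟩
    rw [← haz, h8, Nat.mul_zero, Nat.sub_zero, cl_divPow, W.cl_smul, W.cl_fund,
      LinearMap.pow_mulLeft, LinearMap.mulLeft_apply, mul_smul_comm, mul_one]

/-- The conjecture B in dimension at most one. -/
theorem b_small (hD : X.IsCyc 1 D) (hHL : HardLefschetz W X D) (hn : X.dim ≤ 1)
    (hD2 : (X.prod X).IsCyc 1 (boxSum ops D)) (hHL2 : HardLefschetz W (X.prod X) (boxSum ops D)) :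
    LefschetzB W X D := by
  refine ((a_tfae hD hHL).out 2 0).1 ?_
  rw [show X.dim - 1 = 0 by omega]
  exact aIn_zero hD2 hHL2

/-- The conjecture B implies the conjecture A. -/
theorem a_of_b (hD : X.IsCyc 1 D) (hHL : HardLefschetz W X D) (hB : LefschetzB W X D) :
    LefschetzA W X D := by
  by_cases hn : 1 ≤ X.dim
  · intro j hj z hz
    obtain ⟨z', hz', h⟩ := uniform_self hn hD hHL hB j hj z hz
    exact ⟨z', hz', h W (fun _ => rfl)⟩
  · intro j hj z hz
    have hj0 : j = 0 := by omega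
    subst hj0
    exact aIn_zero hD hHL z hz

/-- The conjecture A in one codimension and the ranks. -/
theorem rank_of_aIn (hD : X.IsCyc 1 D) (hHL : HardLefschetz W X D) {j : ℕ} (hj : 2 * j ≤ X.dim)
    (hA : LefschetzAIn W X D j) : cycleRank W X j = cycleRank W X ((X.dim : ℤ) - j) := by
  refine finrank_eq_of_surj (A := spanCycles W X j) (B := spanCycles W X ((X.dim : ℤ) - j))
    (T := LinearMap.mulLeft W.K (W.cl X D) ^ (X.dim - 2 * j)) ?_ ?_ ?_
  · intro x hx
    induction hx using Submodule.span_induction with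
    | mem x hx =>
      obtain ⟨r, hr, w, hw, rfl⟩ := hx
      obtain rfl : r = j := by exact_mod_cast hr
      rw [← cl_divPow]
      refine subset_span ⟨X.dim - r, by omega, _, ?_, rfl⟩
      have := divPow_mem (ops := ops) hD (X.dim - 2 * r) hw
      rwa [show r + (X.dim - 2 * r) = X.dim - r by omega] at this
    | zero => rw [map_zero]; exact Submodule.zero_mem _
    | add a b _ _ ha hb => rw [map_add]; exact Submodule.add_mem _ ha hb
    | smul a b _ hb => rw [map_smul]; exact Submodule.smul_mem _ _ hb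
  · intro x hx h0
    have h1 : x ∈ W.gr X (2 * j) := Pool.Agent.H914.span_gr hx
    have h2 := (hHL (2 * j) hj).1
    exact h2 x h1 h0
  · intro y hy
    induction hy using Submodule.span_induction with
    | mem x hx =>
      obtain ⟨r, hr, w, hw, rfl⟩ := hx
      obtain rfl : r = X.dim - j := by omega
      obtain ⟨z', hz', h2⟩ := hA w hw
      exact ⟨W.cl X z', subset_span ⟨j, rfl, z', hz', rfl⟩, by rw [← h2, cl_divPow]⟩
    | zero => exact ⟨0, Submodule.zero_mem _, map_zero _⟩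
    | add x y _ _ hx hy =>
      obtain ⟨a, ha, rfl⟩ := hx
      obtain ⟨b, hb, rfl⟩ := hy
      exact ⟨a + b, Submodule.add_mem _ ha hb, map_add _ _ _⟩
    | smul c x _ hx =>
      obtain ⟨a, ha, rfl⟩ := hx
      exact ⟨c • a, Submodule.smul_mem _ _ ha, map_smul _ _ _⟩

/-- **The conjecture A reduces to one codimension**, for a class closed under squares. -/
theorem even_tfae {Pol : ∀ X : 𝒱.Obj, X.Cycles → Prop}
    (hdiv : ∀ (X : 𝒱.Obj) (D : X.Cycles), Pol X D → X.IsCyc 1 D)
    (hhl : ∀ (X : 𝒱.Obj) (D : X.Cycles), Pol X D → HardLefschetz W X D)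
    (hsq : ClosedUnderSquares ops Pol) :
    List.TFAE [
      ∀ (X : 𝒱.Obj) (D : X.Cycles), Pol X D → LefschetzB W X D,
      ∀ (X : 𝒱.Obj) (D : X.Cycles), Pol X D → LefschetzA W X D,
      ∀ (X : 𝒱.Obj) (D : X.Cycles), Pol X D → ∀ m, 1 ≤ m → X.dim = 2 * m →
        LefschetzAIn W X D (m - 1),
      ∀ (X : 𝒱.Obj) (D : X.Cycles), Pol X D → ∀ m : ℕ, 1 ≤ m → X.dim = 2 * m →
        cycleRank W X ((m : ℤ) - 1) = cycleRank W X ((m : ℤ) + 1)] := by
  have hb0 : ∀ (X : 𝒱.Obj) (D : X.Cycles), Pol X D → X.dim ≤ 1 → LefschetzB W X D :=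
    fun X D hP hn => b_small (hdiv X D hP) (hhl X D hP) hn (hdiv _ _ (hsq X D hP))
      (hhl _ _ (hsq X D hP))
  tfae_have 1 → 2 := fun h X D hP => a_of_b (hdiv X D hP) (hhl X D hP) (h X D hP)
  tfae_have 2 → 3 := fun h X D hP m hm hX z hz => h X D hP (m - 1) (by omega) z hz
  tfae_have 3 → 4 := by
    intro h X D hP m hm hX
    have h1 := rank_of_aIn (hdiv X D hP) (hhl X D hP) (j := m - 1) (by omega) (h X D hP m hm hX)
    rwa [show ((m - 1 : ℕ) : ℤ) = (m : ℤ) - 1 by omega,
      show (X.dim : ℤ) - ((m : ℤ) - 1) = (m : ℤ) + 1 by omega] at h1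
  tfae_have 4 → 1 := by
    intro h X D hP
    by_cases hn : X.dim ≤ 1
    · exact hb0 X D hP hn
    · exact lefschetzB_of_rank (hdiv X D hP) (hhl X D hP)
        (h _ _ (hsq X D hP) X.dim (by omega) (by rw [dim_prod]; omega))
  tfae_finish

/-- **The conjecture A reduces to one codimension**, for a class closed under products with hyperplane
sections. -/
theorem odd_tfae {Pol : ∀ X : 𝒱.Obj, X.Cycles → Prop} (hP : SectionClass W Pol)
    (hsq : ClosedUnderSquares ops Pol) :
    List.TFAE [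
      ∀ (X : 𝒱.Obj) (D : X.Cycles), Pol X D → LefschetzB W X D,
      ∀ (X : 𝒱.Obj) (D : X.Cycles), Pol X D → LefschetzA W X D,
      ∀ (X : 𝒱.Obj) (D : X.Cycles), Pol X D → ∀ m, X.dim = 2 * m + 1 → LefschetzAIn W X D m,
      ∀ (X : 𝒱.Obj) (D : X.Cycles), Pol X D → ∀ m : ℕ, X.dim = 2 * m + 1 →
        cycleRank W X m = cycleRank W X ((m : ℤ) + 1)] := by
  have hb0 : ∀ (X : 𝒱.Obj) (D : X.Cycles), Pol X D → X.dim ≤ 1 → LefschetzB W X D :=
    fun X D h hn => b_small (hP.div X D h) (hP.hard X D h) hn (hP.div _ _ (hsq X D h))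
      (hP.hard _ _ (hsq X D h))
  tfae_have 1 → 2 := fun h X D hX => a_of_b (hP.div X D hX) (hP.hard X D hX) (h X D hX)
  tfae_have 2 → 3 := fun h X D hX m hm z hz => h X D hX m (by omega) z hz
  tfae_have 3 → 4 := by
    intro h X D hX m hm
    have h1 := rank_of_aIn (hP.div X D hX) (hP.hard X D hX) (j := m) (by omega) (h X D hX m hm)
    rwa [show (X.dim : ℤ) - (m : ℤ) = (m : ℤ) + 1 by omega] at h1
  tfae_have 4 → 1 := by
    intro h X D hX
    by_cases hn : X.dim ≤ 1
    · exact hb0 X D hX hn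
    · obtain ⟨Y, i, hY, hXY⟩ := hP.sec X D hX (by omega)
      have hdim := hY.dim
      have h1 := h _ _ hXY Y.dim (by rw [dim_prod]; omega)
      refine lefschetzB_of_rankXY hdim (hP.div X D hX) hY.cls (hP.hard X D hX) hY.weak ?_
      rw [h1]
      congr 1
      omega
  tfae_finish

end Pool.Agent.Q70.LA
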