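import Pool.Agent.Q70.LA.A
import Pool.Agent.W534.FamD

/-!
# The conjecture D in one codimension
-/

set_option autoImplicit false

open CategoryTheory AlgebraicGeometry Submodule

universe u v

namespace Pool.Agent.Q70.LA

open Pool.Agent.H914 Pool.Agent.H447 Pool.Agent.W534 VarClass Obj WeilCohomology
  Pool.Agent.H281R3.HT

variable {k : Type u} [Field k] {𝒱 : VarClass k} {ops : CycleOps 𝒱}
  {W : WeilCohomology.{u, v} ops} {X : 𝒱.Obj} {D : X.Cycles}

/-- The conjecture D above the dimension. -/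
theorem d_big {q : ℕ} (hq : X.dim < q) : HomEqNumIn W X q := by
  intro z hz _
  have h1 := W.cl_mem hz
  rw [W.gr_eq_bot X (2 * q) (by omega)] at h1
  exact (mem_bot _).1 h1

/-- The conjecture D for zero cycles. -/
theorem d_top : HomEqNumIn W X X.dim := by
  intro z hz h
  apply Pool.Agent.Y103.top_eq_zero (W.cl_mem hz)
  have h1 := h X.V.fundCycle (by rw [Nat.sub_self]; exact X.V.fundCycle_mem)
  have h2 : X.IsCyc X.dim (ops.mul z X.V.fundCycle) := by
    have := ops.mul_mem hz X.V.fundCycle_mem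
    rwa [add_zero] at this
  have h3 := W.tr_cl h2
  rwa [W.cl_mul, W.cl_fund, mul_one, h1, Rat.cast_zero] at h3

/-- The conjecture D in codimension zero. -/
theorem d_zero (hD : X.IsCyc 1 D) (hHL : HardLefschetz W X D) : HomEqNumIn W X 0 := by
  intro z hz h
  have h5 : X.IsCyc (X.dim - 0) (divPow ops D X.dim X.V.fundCycle) := by
    have := divPow_mem (ops := ops) hD X.dim X.V.fundCycle_mem
    rwa [zero_add] at this
  have h1 := h _ h5
  have h2 : X.IsCyc X.dim (ops.mul z (divPow ops D X.dim X.V.fundCycle)) := by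
    have := ops.mul_mem hz h5
    rwa [Nat.sub_zero, zero_add] at this
  have h3 := W.tr_cl h2
  rw [W.cl_mul, pow_cyc hD, h1, Rat.cast_zero, W.even_comm (W.cl_mem hz)] at h3
  have h4 := Pool.Agent.Y103.top_eq_zero (W := W) (X := X) (a := W.cl X D ^ X.dim * W.cl X z) (by
    have h6 := W.cl_mem h2
    rwa [W.cl_mul, pow_cyc hD, W.even_comm (W.cl_mem hz)] at h6) h3
  apply (hHL 0 (Nat.zero_le _)).1 _ (by have := W.cl_mem hz; rwa [mul_zero] at this)
  rw [Nat.sub_zero, LinearMap.pow_mulLeft, LinearMap.mulLeft_apply]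
  exact h4

/-- The conjecture D in dimension at most one. -/
theorem d_small (hD : X.IsCyc 1 D) (hHL : HardLefschetz W X D) (hn : X.dim ≤ 1) (q : ℕ) :
    HomEqNumIn W X q := by
  rcases Nat.lt_or_ge X.dim q with h | h
  · exact d_big h
  rcases Nat.eq_or_lt_of_le h with h | h
  · rw [h]; exact d_top
  · obtain rfl : q = 0 := by omega
    exact d_zero hD hHL

/-- **The conjecture D reduces to one codimension.** -/
theorem d_tfae {Pol : ∀ X : 𝒱.Obj, X.Cycles → Prop} (hP : SectionClass W Pol)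
    (hsq : ClosedUnderSquares ops Pol) :
    List.TFAE [
      ∀ (X : 𝒱.Obj) (D : X.Cycles), Pol X D → ∀ q, HomEqNumIn W X q,
      ∀ (X : 𝒱.Obj) (D : X.Cycles), Pol X D → ∀ m, X.dim = 2 * m + 1 → HomEqNumIn W X (m + 1),
      (∀ (X : 𝒱.Obj) (D : X.Cycles), Pol X D → LefschetzB W X D) ∧
        ∀ (X : 𝒱.Obj) (D : X.Cycles), Pol X D → ∀ m, X.dim = 2 * m + 1 → HomEqNumIn W X m] := by
  have key : (∀ (X : 𝒱.Obj) (D : X.Cycles), Pol X D → ∀ m, X.dim = 2 * m + 1 →
      HomEqNumIn W X (m + 1)) → ∀ (X : 𝒱.Obj) (D : X.Cycles), Pol X D →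
        LefschetzB W X D ∧ ∀ q, HomEqNumIn W X q := by
    intro h X D hX
    by_cases hn : X.dim ≤ 1
    · exact ⟨b_small (hP.div X D hX) (hP.hard X D hX) hn (hP.div _ _ (hsq X D hX))
        (hP.hard _ _ (hsq X D hX)), d_small (hP.div X D hX) (hP.hard X D hX) hn⟩
    · obtain ⟨Y, i, hY, hXY⟩ := hP.sec X D hX (by omega)
      have hdim := hY.dim
      have h1 := h _ _ hXY Y.dim (by rw [dim_prod]; omega)
      rw [← hdim] at h1
      exact ⟨lefschetzB_of_homEqNumXY hdim (hP.div X D hX) hY.cls (hP.hard X D hX) hY.weak h1,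
        fun q => (homEqNum_factors hdim (hP.div X D hX) hY.cls (hP.hard X D hX) hY.weak h1 q).1⟩
  tfae_have 1 → 2 := fun h X D hX m _ => h X D hX (m + 1)
  tfae_have 2 → 3 := fun h =>
    ⟨fun X D hX => (key h X D hX).1, fun X D hX m _ => (key h X D hX).2 m⟩
  tfae_have 3 → 1 := by
    rintro ⟨hB, h⟩ X D hX
    by_cases hn : X.dim ≤ 1
    · exact d_small (hP.div X D hX) (hP.hard X D hX) hn
    · obtain ⟨Y, i, hY, hXY⟩ := hP.sec X D hX (by omega)
      have hdim := hY.dim
      have h3 : LefschetzB W X D ∧ HomEqNumIn W (X.prod Y) Y.dim :=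
        ⟨hB X D hX, h _ _ hXY Y.dim (by rw [dim_prod]; omega)⟩
      have h1 : HomEqNumIn W (X.prod Y) X.dim :=
        ((d_hyperplane hdim (hP.div X D hX) hY.cls (hP.hard X D hX) hY.weak).out 2 0).1 h3
      exact fun q =>
        (homEqNum_factors hdim (hP.div X D hX) hY.cls (hP.hard X D hX) hY.weak h1 q).1
  tfae_finish

end Pool.Agent.Q70.LA
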