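import Pool.Agent.W534.HDefs
import Pool.Agent.W534.UDefs

/-!
# Classes of polarized varieties closed under squares and under products with hyperplane sections
-/

set_option autoImplicit false

open CategoryTheory AlgebraicGeometry

universe u v

namespace Pool.Agent.Q70.LA

open Pool.Agent.H914 Pool.Agent.W534 VarClass Obj WeilCohomology

variable {k : Type u} [Field k] {𝒱 : VarClass k} {ops : CycleOps 𝒱}

/-- The morphism `i` from `Y` to `X` looks like the inclusion of a smooth connected hyperplane section
that belongs to the divisor `D`: the dimension of `Y` is `dim X - 1`, the direct image of the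
fundamental class of `Y` is the class of `D`, and `H^j(X) → H^j(Y)` is surjective for `j < dim Y` (weak
Lefschetz theorem). -/
structure IsSection (W : WeilCohomology.{u, v} ops) {X Y : 𝒱.Obj} (i : Y ⟶ X) (D : X.Cycles) :
    Prop where
  dim : X.dim = Y.dim + 1
  cls : W.cl X (ops.push i Y.V.fundCycle) = W.cl X D
  weak : WeakLefschetz W i

/-- `Pol` is a class of pairs `(X, D)` of a variety `X` and a divisor `D` for which the hard Lefschetz
theorem holds, such that for every pair `(X, D)` in `Pol` with `dim X ≥ 2` there is a smooth connected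
hyperplane section `Y` of `X` belonging to `D` for which the pair of `X × Y` and
`D × Y + X × (D ∩ Y)` is in `Pol`. Example: all pairs `(X, D)` where `D` is the class of the hyperplane
sections for a projective embedding of `X`, by the theorems of Bertini, Lefschetz, Deligne and by the
embedding of Segre. -/
structure SectionClass (W : WeilCohomology.{u, v} ops) (Pol : ∀ X : 𝒱.Obj, X.Cycles → Prop) : Prop
    where
  div : ∀ (X : 𝒱.Obj) (D : X.Cycles), Pol X D → X.IsCyc 1 D
  hard : ∀ (X : 𝒱.Obj) (D : X.Cycles), Pol X D → HardLefschetz W X D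
  sec : ∀ (X : 𝒱.Obj) (D : X.Cycles), Pol X D → 2 ≤ X.dim → ∃ (Y : 𝒱.Obj) (i : Y ⟶ X),
    IsSection W i D ∧ Pol (X.prod Y) (mixSum ops i D)

/-- The class `Pol` contains with `(X, D)` the pair of `X × X` and `D × X + X × D`. -/
def ClosedUnderSquares (ops : CycleOps 𝒱) (Pol : ∀ X : 𝒱.Obj, X.Cycles → Prop) : Prop :=
  ∀ (X : 𝒱.Obj) (D : X.Cycles), Pol X D → Pol (X.prod X) (boxSum ops D)

end Pool.Agent.Q70.LA
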