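import Pool.Agent.Q70.LA.D
import Pool.Agent.W534.PoleD

/-!
# The Tate conjecture and the order of the pole in one codimension
-/

set_option autoImplicit false

open CategoryTheory AlgebraicGeometry Submodule

universe u v

namespace Pool.Agent.Q70.LA

open Pool.Agent.H914 Pool.Agent.H447 Pool.Agent.W534 VarClass Obj WeilCohomology
  Pool.Agent.H281R3.HT

variable {k : Type u} [Field k] {𝒱 : VarClass k} {ops : CycleOps 𝒱}
  {W : WeilCohomology.{u, v} ops} {X : 𝒱.Obj} {D : X.Cycles} {p : ℕ} {Φ : FrobSystem W p}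
  {σ : W.K →+* ℂ}

/-- The Tate conjecture above the dimension. -/
theorem t_big {q : ℕ} (hq : X.dim < q) : TateIn Φ X q := by
  intro c hc
  have h1 := hc.1
  rw [W.gr_eq_bot X (2 * q) (by omega)] at h1
  rw [(mem_bot _).1 h1]
  exact Submodule.zero_mem _

/-- The Tate conjecture in codimension zero. -/
theorem t_zero : TateIn Φ X 0 := by
  intro c hc
  have h1 := hc.1
  rw [mul_zero, W.gr_zero, mem_span_singleton] at h1
  obtain ⟨s, rfl⟩ := h1
  exact Submodule.smul_mem _ _ (subset_span ⟨0, rfl, _, X.V.fundCycle_mem, W.cl_fund X⟩)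

/-- The Tate conjecture for zero cycles. -/
theorem t_top (hD : X.IsCyc 1 D) (hHL : HardLefschetz W X D) : TateIn Φ X X.dim := by
  intro c hc
  obtain ⟨a, ha, rfl⟩ := (hHL 0 (Nat.zero_le _)).2 c hc.1
  rw [W.gr_zero, mem_span_singleton] at ha
  obtain ⟨s, rfl⟩ := ha
  rw [Nat.sub_zero, map_smul]
  refine Submodule.smul_mem _ _ (subset_span ⟨X.dim, rfl, divPow ops D X.dim X.V.fundCycle, ?_, ?_⟩)
  · have := divPow_mem (ops := ops) hD X.dim X.V.fundCycle_mem
    rwa [zero_add] at this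
  · rw [cl_divPow, W.cl_fund]

/-- The Tate conjecture in dimension at most one. -/
theorem t_small (hD : X.IsCyc 1 D) (hHL : HardLefschetz W X D) (hn : X.dim ≤ 1) (q : ℕ) :
    TateIn Φ X q := by
  rcases Nat.lt_or_ge X.dim q with h | h
  · exact t_big h
  rcases Nat.eq_or_lt_of_le h with h | h
  · rw [h]; exact t_top hD hHL
  · obtain rfl : q = 0 := by omega
    exact t_zero

/-- **The Tate conjecture reduces to one codimension.** -/
theorem t_tfae {Pol : ∀ X : 𝒱.Obj, X.Cycles → Prop} (hP : SectionClass W Pol)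
    (hsq : ClosedUnderSquares ops Pol) :
    List.TFAE [
      ∀ (X : 𝒱.Obj) (D : X.Cycles), Pol X D → ∀ j, TateIn Φ X j,
      ∀ (X : 𝒱.Obj) (D : X.Cycles), Pol X D → ∀ m, X.dim = 2 * m + 1 → TateIn Φ X m,
      (∀ (X : 𝒱.Obj) (D : X.Cycles), Pol X D → LefschetzB W X D) ∧
        ∀ (X : 𝒱.Obj) (D : X.Cycles), Pol X D → ∀ m, X.dim = 2 * m + 1 →
          TateIn Φ X (m + 1)] := by
  have key : (∀ (X : 𝒱.Obj) (D : X.Cycles), Pol X D → ∀ m, X.dim = 2 * m + 1 →
      TateIn Φ X m) → ∀ (X : 𝒱.Obj) (D : X.Cycles), Pol X D →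
        LefschetzB W X D ∧ ∀ q, TateIn Φ X q := by
    intro h X D hX
    by_cases hn : X.dim ≤ 1
    · exact ⟨b_small (hP.div X D hX) (hP.hard X D hX) hn (hP.div _ _ (hsq X D hX))
        (hP.hard _ _ (hsq X D hX)), t_small (hP.div X D hX) (hP.hard X D hX) hn⟩
    · obtain ⟨Y, i, hY, hXY⟩ := hP.sec X D hX (by omega)
      have hdim := hY.dim
      have h1 := h _ _ hXY Y.dim (by rw [dim_prod]; omega)
      exact ⟨lefschetzB_of_tate hdim (hP.div X D hX) hY.cls (hP.hard X D hX) hY.weak h1,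
        fun q => (tate_factors hdim (hP.div X D hX) hY.cls (hP.hard X D hX) hY.weak h1 q).1⟩
  tfae_have 1 → 2 := fun h X D hX m _ => h X D hX m
  tfae_have 2 → 3 := fun h =>
    ⟨fun X D hX => (key h X D hX).1, fun X D hX m _ => (key h X D hX).2 (m + 1)⟩
  tfae_have 3 → 1 := by
    rintro ⟨hB, h⟩ X D hX
    by_cases hn : X.dim ≤ 1
    · exact t_small (hP.div X D hX) (hP.hard X D hX) hn
    · obtain ⟨Y, i, hY, hXY⟩ := hP.sec X D hX (by omega)
      have hdim := hY.dim
      have h2 := h _ _ hXY Y.dim (by rw [dim_prod]; omega)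
      rw [← hdim] at h2
      have h3 : LefschetzB W X D ∧ TateIn Φ (X.prod Y) X.dim := ⟨hB X D hX, h2⟩
      have h1 : TateIn Φ (X.prod Y) Y.dim :=
        ((tate_hyperplane hdim (hP.div X D hX) hY.cls (hP.hard X D hX) hY.weak).out 2 0).1 h3
      exact fun q => (tate_factors hdim (hP.div X D hX) hY.cls (hP.hard X D hX) hY.weak h1 q).1
  tfae_finish

/-- **Tate's conjecture on the orders of the poles reduces to one integer.** -/
theorem pole_tfae (hp : 1 < p) (hRH : ∀ Z, RiemannHyp Φ σ Z)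
    {Pol : ∀ X : 𝒱.Obj, X.Cycles → Prop} (hP : SectionClass W Pol) :
    List.TFAE [
      ∀ (X : 𝒱.Obj) (D : X.Cycles), Pol X D → ∀ j ≤ X.dim, PoleFormula Φ σ X j,
      ∀ (X : 𝒱.Obj) (D : X.Cycles), Pol X D → ∀ m, X.dim = 2 * m + 1 → PoleFormula Φ σ X m,
      ∀ (X : 𝒱.Obj) (D : X.Cycles), Pol X D → ∀ m, X.dim = 2 * m + 1 → PoleFormula Φ σ X (m + 1),
      ∀ (X : 𝒱.Obj) (D : X.Cycles), Pol X D → ∀ m, X.dim = 2 * m + 1 → SemisimpleTateIn Φ X m] := by
  have small : ∀ (X : 𝒱.Obj) (D : X.Cycles), Pol X D → X.dim ≤ 1 → ∀ j ≤ X.dim,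
      PoleFormula Φ σ X j := fun X D hX hn j hj => (pole_iff_tate hp (hRH _) hj).2
    ⟨t_small (hP.div X D hX) (hP.hard X D hX) hn j, d_small (hP.div X D hX) (hP.hard X D hX) hn j⟩
  tfae_have 1 → 4 := fun h X D hX m hm =>
    (semisimple_of_pole hp (hRH _) (l := m + 1) (by omega) (h X D hX m (by omega))).1
  tfae_have 4 → 2 := by
    intro h X D hX
    have h1 : ∀ j ≤ X.dim, PoleFormula Φ σ X j := by
      by_cases hn : X.dim ≤ 1
      · exact small X D hX hn
      · obtain ⟨Y, i, hY, hXY⟩ := hP.sec X D hX (by omega)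
        have hdim := hY.dim
        have h3 : SemisimpleTateIn Φ (X.prod Y) Y.dim :=
          h _ _ hXY Y.dim (by rw [dim_prod]; omega)
        have h1 : PoleFormula Φ σ (X.prod Y) Y.dim := ((pole_hyperplane hp hRH hdim
          (hP.div X D hX) hY.cls (hP.hard X D hX) hY.weak).out 3 0).1 h3
        exact (pole_factors hp hRH hdim (hP.div X D hX) hY.cls (hP.hard X D hX) hY.weak h1).2.1
    exact fun m hm => h1 m (by omega)
  tfae_have 2 → 3 := fun h X D hX m hm =>
    (pole_symm hp (hRH _) (j := m) (l := m + 1) (by omega)).1 (h X D hX m hm)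
  tfae_have 3 → 1 := by
    intro h X D hX
    by_cases hn : X.dim ≤ 1
    · exact small X D hX hn
    · obtain ⟨Y, i, hY, hXY⟩ := hP.sec X D hX (by omega)
      have hdim := hY.dim
      have h2 := h _ _ hXY Y.dim (by rw [dim_prod]; omega)
      rw [← hdim] at h2
      have h1 : PoleFormula Φ σ (X.prod Y) Y.dim := ((pole_hyperplane hp hRH hdim
          (hP.div X D hX) hY.cls (hP.hard X D hX) hY.weak).out 1 0).1 h2
      exact (pole_factors hp hRH hdim (hP.div X D hX) hY.cls (hP.hard X D hX) hY.weak h1).2.1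
  tfae_finish

end Pool.Agent.Q70.LA
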